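import Pool.Agent.N658.FF.Stm

/-! # Project FF, the angle between ground spaces (helper383) -/

open scoped BigOperators InnerProductSpace Classical

noncomputable section

namespace Pool.Agent.N383.FF

open Pool.Agent.N658.FF

variable {E : Type} [NormedAddCommGroup E] [InnerProductSpace ℂ E] [FiniteDimensional ℂ E]
variable {T : Type}

theorem G_le (V : T → Submodule ℂ E) {A : Finset T} {x : T} (hx : x ∈ A) : G V A ≤ V x :=
  iInf₂_le x hx

theorem mem_G (V : T → Submodule ℂ E) {A : Finset T} {u : E} : u ∈ G V A ↔ ∀ x ∈ A, u ∈ V x := by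
  unfold G
  simp only [Submodule.mem_iInf]

/-- projections onto larger subspaces can be dropped -/
theorem pr_prod (V : T → Submodule ℂ E) (A : Finset T) : ∀ l : List T, (∀ x ∈ l, x ∈ A) →
    pr (G V A) * (l.map fun x => pr (V x)).prod = pr (G V A) := by
  intro l
  induction l with
  | nil => intro _; simp
  | cons a l ih =>
    intro h
    rw [List.map_cons, List.prod_cons, ← mul_assoc]
    have h1 : pr (G V A) * pr (V a) = pr (G V A) :=
      Submodule.starProjection_comp_starProjection_of_le (G_le V (h a List.mem_cons_self))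
    rw [h1]
    exact ih fun x hx => h x (List.mem_cons_of_mem _ hx)

/-- the product fixes the common ground states -/
theorem prod_fix (V : T → Submodule ℂ E) (u : E) : ∀ l : List T, (∀ x ∈ l, u ∈ V x) →
    (l.map fun x => pr (V x)).prod u = u := by
  intro l
  induction l with
  | nil => intro _; simp
  | cons a l ih =>
    intro h
    rw [List.map_cons, List.prod_cons, ContinuousLinearMap.mul_apply,
      ih fun x hx => h x (List.mem_cons_of_mem _ hx)]
    exact Submodule.starProjection_eq_self_iff.2 (h a List.mem_cons_self)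

theorem angle (h : StmDL) : StmAngle := by
  intro E _ _ _ T _ _ V adj g Δ hL hΔ hG B X u hu hu'
  let l : List T := X.toList ++ (B \ X).toList
  have hnd : l.Nodup := by
    refine List.Nodup.append X.nodup_toList (B \ X).nodup_toList ?_
    intro x hx hx'
    rw [Finset.mem_toList] at hx hx'
    exact (Finset.mem_sdiff.1 hx').2 hx
  have hmem : ∀ x, x ∈ l ↔ x ∈ B ∪ X := by
    intro x
    show x ∈ X.toList ++ (B \ X).toList ↔ x ∈ B ∪ X
    rw [List.mem_append, Finset.mem_toList, Finset.mem_toList, Finset.mem_sdiff, Finset.mem_union]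
    tauto
  have h1 := h E T V adj g Δ hL hΔ hG (B ∪ X) l hnd hmem u hu'
  have h2 : (l.map fun x => pr (V x)).prod u = (X.toList.map fun x => pr (V x)).prod u := by
    show ((X.toList ++ (B \ X).toList).map fun x => pr (V x)).prod u = _
    rw [List.map_append, List.prod_append, ContinuousLinearMap.mul_apply, prod_fix V u]
    intro x hx
    rw [Finset.mem_toList] at hx
    exact (mem_G V).1 hu x (Finset.mem_sdiff.1 hx).1
  rw [h2] at h1
  have h3 : pr (G V X) u = pr (G V X) ((X.toList.map fun x => pr (V x)).prod u) := by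
    rw [← ContinuousLinearMap.mul_apply, pr_prod V X _ fun x hx => Finset.mem_toList.1 hx]
  have h4 : ‖pr (G V X) u‖ ≤ ‖(X.toList.map fun x => pr (V x)).prod u‖ := by
    rw [h3]
    exact Submodule.norm_starProjection_apply_le _ _
  have h5 : ‖pr (G V X) u‖ ^ 2 ≤ (g : ℝ) ^ 2 / ((g : ℝ) ^ 2 + Δ) * ‖u‖ ^ 2 :=
    (pow_le_pow_left₀ (norm_nonneg _) h4 2).trans h1
  have h6 : ‖u‖ ^ 2 = ‖pr (G V X) u‖ ^ 2 + ‖u - pr (G V X) u‖ ^ 2 := by
    have h7 := Submodule.norm_sq_eq_add_norm_sq_starProjection u (G V X)
    have h8 : (G V X)ᗮ.starProjection u = u - pr (G V X) u := by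
      rw [Submodule.starProjection_orthogonal_val]
    rw [h8] at h7
    exact h7
  have hg : (1 : ℝ) ≤ g := by exact_mod_cast hL.pos
  have hpos : (0 : ℝ) < (g : ℝ) ^ 2 + Δ := by positivity
  have h9 : Δ / ((g : ℝ) ^ 2 + Δ) = 1 - (g : ℝ) ^ 2 / ((g : ℝ) ^ 2 + Δ) := by
    field_simp
    ring
  rw [h9]
  linarith

end Pool.Agent.N383.FF

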