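import Pool.Agent.N658.FF.Stm3

/-! # Project FF2, low energy subspaces (helper383) -/

open scoped BigOperators InnerProductSpace Classical

noncomputable section

namespace Pool.Agent.N383.FF

open Pool.Agent.N658.FF

variable {E : Type} [NormedAddCommGroup E] [InnerProductSpace ℂ E] [FiniteDimensional ℂ E]
variable {T : Type}

/-- the projection minimizes the distance -/
theorem pr_min (K : Submodule ℂ E) (u v : E) (hv : v ∈ K) :
    ‖u‖ ^ 2 - ‖pr K u‖ ^ 2 ≤ ‖u - v‖ ^ 2 := by
  have h1 := K.norm_sq_eq_add_norm_sq_starProjection u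
  have h2 := K.norm_sq_eq_add_norm_sq_starProjection (u - v)
  have h3 : Kᗮ.starProjection (u - v) = Kᗮ.starProjection u := by
    rw [map_sub, Submodule.starProjection_orthogonal_apply_eq_zero hv, sub_zero]
  rw [h3] at h2
  have h4 := sq_nonneg ‖K.starProjection (u - v)‖
  show ‖u‖ ^ 2 - ‖K.starProjection u‖ ^ 2 ≤ _
  linarith

/-- the energy of one term as a quadratic form -/
theorem eps_eq (K : Submodule ℂ E) (u : E) : ((‖u - pr K u‖ ^ 2 : ℝ) : ℂ) = ⟪u - pr K u, u⟫_ℂ := by
  have h1 : ⟪u - pr K u, pr K u⟫_ℂ = 0 :=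
    Submodule.starProjection_inner_eq_zero u _ (Submodule.starProjection_apply_mem K u)
  have h2 : ⟪u - pr K u, u - pr K u⟫_ℂ = ⟪u - pr K u, u⟫_ℂ := by
    rw [inner_sub_right (u - pr K u) u, h1, sub_zero]
  rw [← h2, inner_self_eq_norm_sq_to_K]
  norm_cast

/-- the sum of the terms -/
def Hs [Fintype T] (V : T → Submodule ℂ E) : E →ₗ[ℂ] E :=
  ∑ x, (LinearMap.id - (pr (V x) : E →ₗ[ℂ] E))

theorem Hs_apply [Fintype T] (V : T → Submodule ℂ E) (u : E) :
    Hs V u = ∑ x, (u - pr (V x) u) := by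
  unfold Hs
  rw [LinearMap.sum_apply]
  rfl

theorem Hs_inner [Fintype T] (V : T → Submodule ℂ E) (u : E) :
    ⟪Hs V u, u⟫_ℂ = ((∑ x, eps V x u : ℝ) : ℂ) := by
  rw [Hs_apply, sum_inner]
  push_cast
  refine Finset.sum_congr rfl fun x _ => ?_
  rw [← eps_eq]
  rfl

theorem Hs_symm [Fintype T] (V : T → Submodule ℂ E) (u v : E) :
    ⟪Hs V u, v⟫_ℂ = ⟪u, Hs V v⟫_ℂ := by
  rw [Hs_apply, Hs_apply, sum_inner, inner_sum]
  refine Finset.sum_congr rfl fun x _ => ?_
  rw [inner_sub_left, inner_sub_right]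
  congr 1
  exact Submodule.inner_starProjection_left_eq_right (V x) u v

/-- the compression -/
def Cm [Fintype T] (V : T → Submodule ℂ E) (W : Submodule ℂ E) : W →ₗ[ℂ] W :=
  (W.orthogonalProjectionOnto : E →ₗ[ℂ] W) ∘ₗ Hs V ∘ₗ W.subtype

theorem Cm_inner [Fintype T] (V : T → Submodule ℂ E) (W : Submodule ℂ E) (u v : W) :
    ⟪Cm V W u, v⟫_ℂ = ⟪Hs V (u : E), (v : E)⟫_ℂ :=
  Submodule.inner_orthogonalProjectionOnto_eq_of_mem_right v (Hs V (u : E))

theorem Cm_symm [Fintype T] (V : T → Submodule ℂ E) (W : Submodule ℂ E) :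
    (Cm V W).IsSymmetric := by
  intro u v
  rw [Cm_inner, Hs_symm, ← inner_conj_symm, ← Cm_inner V W v u, inner_conj_symm]

theorem low : StmLow := by
  intro E _ _ _ T _ V W M hM
  have hS := Cm_symm V W
  let n := Module.finrank ℂ W
  let b : OrthonormalBasis (Fin n) ℂ W := hS.eigenvectorBasis rfl
  let lam : Fin n → ℝ := hS.eigenvalues rfl
  have hrep : ∀ (v : W) (i : Fin n), b.repr (Cm V W v) i = lam i * b.repr v i := fun v i =>
    hS.eigenvectorBasis_apply_self_apply rfl v i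
  -- the energy
  have hen : ∀ v : W, ∑ x, eps V x (v : E) = ∑ i, lam i * ‖b.repr v i‖ ^ 2 := by
    intro v
    have h1 : ⟪Cm V W v, v⟫_ℂ = ((∑ x, eps V x (v : E) : ℝ) : ℂ) := by
      rw [Cm_inner, Hs_inner]
    have h2 : ⟪Cm V W v, v⟫_ℂ = ((∑ i, lam i * ‖b.repr v i‖ ^ 2 : ℝ) : ℂ) := by
      rw [← b.repr.inner_map_map, PiLp.inner_apply]
      push_cast
      refine Finset.sum_congr rfl fun i _ => ?_
      rw [hrep]
      rw [show ((lam i : ℂ) * b.repr v i) = (lam i : ℂ) • b.repr v i from rfl, inner_smul_left,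
        inner_self_eq_norm_sq_to_K]
      simp
    rw [h1] at h2
    exact_mod_cast h2
  have hnm : ∀ v : W, ‖(v : E)‖ ^ 2 = ∑ i, ‖b.repr v i‖ ^ 2 := by
    intro v
    rw [Submodule.norm_coe, ← b.repr.norm_map, EuclideanSpace.norm_sq_eq]
  have hlam : ∀ i, 0 ≤ lam i := by
    intro i
    have h1 := hen (b i)
    have h2 : ∀ j, ‖b.repr (b i) j‖ ^ 2 = if j = i then 1 else 0 := by
      intro j
      rw [OrthonormalBasis.repr_self, EuclideanSpace.single_apply]
      split_ifs <;> simp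
    simp only [h2, mul_ite, mul_one, mul_zero, Finset.sum_ite_eq', Finset.mem_univ, if_true] at h1
    rw [← h1]
    exact Finset.sum_nonneg fun x _ => sq_nonneg _
  -- the subspace
  let L' : Submodule ℂ W :=
    { carrier := {v | ∀ i, M < lam i → b.repr v i = 0}
      add_mem' := by
        intro x y hx hy i hi
        rw [map_add, PiLp.add_apply, hx i hi, hy i hi, add_zero]
      zero_mem' := by
        intro i _
        rw [map_zero]
        rfl
      smul_mem' := by
        intro c x hx i hi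
        rw [map_smul, PiLp.smul_apply, hx i hi, smul_zero] }
  refine ⟨L'.map W.subtype, ?_, ?_, ?_⟩
  · rintro _ ⟨v, _, rfl⟩
    exact v.2
  · rintro _ ⟨v, hv, rfl⟩
    have hv' : ∀ i, M < lam i → b.repr v i = 0 := hv
    show ∑ x, eps V x (v : E) ≤ M * ‖(v : E)‖ ^ 2
    rw [hen, hnm, Finset.mul_sum]
    refine Finset.sum_le_sum fun i _ => ?_
    by_cases h : M < lam i
    · rw [hv' i h]
      simp
    · exact mul_le_mul_of_nonneg_right (not_lt.1 h) (sq_nonneg _)
  · intro u hu
    let u' : W := ⟨u, hu⟩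
    let v' : W := b.repr.symm (WithLp.toLp 2 fun i => if M < lam i then 0 else b.repr u' i)
    have hv' : ∀ i, b.repr v' i = if M < lam i then 0 else b.repr u' i := by
      intro i
      show b.repr (b.repr.symm _) i = _
      rw [LinearIsometryEquiv.apply_symm_apply]
    have hvm : (v' : E) ∈ L'.map W.subtype := by
      refine ⟨v', ?_, rfl⟩
      intro i hi
      rw [hv' i, if_pos hi]
    have h1 := pr_min (L'.map W.subtype) u (v' : E) hvm
    have h2 : ‖u - (v' : E)‖ ^ 2 = ∑ i, if M < lam i then ‖b.repr u' i‖ ^ 2 else 0 := by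
      have : u - (v' : E) = ((u' - v' : W) : E) := rfl
      rw [this, hnm]
      refine Finset.sum_congr rfl fun i _ => ?_
      rw [map_sub, PiLp.sub_apply, hv' i]
      split_ifs <;> simp
    have h3 : ∑ x, eps V x u = ∑ i, lam i * ‖b.repr u' i‖ ^ 2 := hen u'
    rw [h3]
    refine (mul_le_mul_of_nonneg_left (h1.trans h2.le) hM).trans ?_
    rw [Finset.mul_sum]
    refine Finset.sum_le_sum fun i _ => ?_
    split_ifs with h
    · exact mul_le_mul_of_nonneg_right h.le (sq_nonneg _)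
    · rw [mul_zero]
      exact mul_nonneg (hlam i) (sq_nonneg _)

end Pool.Agent.N383.FF

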